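import Pool.Agent.Helper40.ZU.Stmts

/-!
Row EGN of the sheet ZU (MP_7a8f48_an): the set of generic points of an ergodic measure.
-/

open MeasureTheory Filter Topology Finset

namespace Pool.Agent.Helper99.ZU

open Pool.Agent.Helper40.ZU

/-- a countable pi system which generates the sigma algebra -/
theorem exists_pi (Z : Type) [mZ : MeasurableSpace Z] [MeasurableSpace.CountablyGenerated Z] :
    ∃ c : ℕ → Set Z, (∀ i, MeasurableSet (c i)) ∧
      mZ = MeasurableSpace.generateFrom (Set.range c) ∧ IsPiSystem (Set.range c) := by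
  classical
  obtain ⟨f, hf⟩ := exists_surjective_nat (Finset ℕ)
  have hm : ∀ i, MeasurableSet (⋂ n ∈ f i, MeasurableSpace.natGeneratingSequence Z n) := fun i =>
    Finset.measurableSet_biInter _ fun n _ =>
      MeasurableSpace.measurableSet_natGeneratingSequence n
  refine ⟨fun i => ⋂ n ∈ f i, MeasurableSpace.natGeneratingSequence Z n, hm, ?_, ?_⟩
  · apply le_antisymm
    · conv_lhs => rw [← MeasurableSpace.generateFrom_natGeneratingSequence Z]
      refine MeasurableSpace.generateFrom_le ?_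
      rintro _ ⟨n, rfl⟩
      obtain ⟨i, hi⟩ := hf {n}
      refine MeasurableSpace.measurableSet_generateFrom ⟨i, ?_⟩
      simp [hi]
    · refine MeasurableSpace.generateFrom_le ?_
      rintro _ ⟨i, rfl⟩
      exact hm i
  · rintro _ ⟨i, rfl⟩ _ ⟨j, rfl⟩ _
    obtain ⟨k, hk⟩ := hf (f i ∪ f j)
    refine ⟨k, ?_⟩
    ext z
    simp only [hk, Set.mem_iInter, Set.mem_inter_iff, Finset.mem_union]
    constructor
    · intro h; exact ⟨fun n hn => h n (Or.inl hn), fun n hn => h n (Or.inr hn)⟩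
    · rintro ⟨h1, h2⟩ n (hn | hn)
      · exact h1 n hn
      · exact h2 n hn

/-- the conditional expectation on the invariant sets is constant for an ergodic measure -/
theorem condExp_inv {Z : Type} [MeasurableSpace Z] {μ : Measure Z} [IsProbabilityMeasure μ]
    {τ : Z → Z} (h : Ergodic τ μ) (F : Z → ℝ) :
    μ[F|MeasurableSpace.invariants τ] =ᵐ[μ] fun _ => ∫ z, F z ∂μ := by
  have hsm : Measurable[MeasurableSpace.invariants τ] (μ[F|MeasurableSpace.invariants τ]) :=
    (stronglyMeasurable_condExp (μ := μ) (f := F)).measurable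
  have hc := MeasurableSpace.comp_eq_of_measurable_invariants hsm
  obtain ⟨c, hc'⟩ := h.toPreErgodic.ae_eq_const_of_ae_eq_comp
    (hsm.mono (MeasurableSpace.invariants_le τ) le_rfl) hc
  have h1 : ∫ z, (μ[F|MeasurableSpace.invariants τ]) z ∂μ = ∫ z, F z ∂μ :=
    integral_condExp (MeasurableSpace.invariants_le τ)
  have h2 : ∫ z, (μ[F|MeasurableSpace.invariants τ]) z ∂μ = c := by
    rw [integral_congr_ae hc']; simp
  rw [h2] at h1
  rw [← h1]; exact hc'

section

variable {Z : Type} [MeasurableSpace Z]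

/-- the deviation of the averages of the indicator of `s` -/
noncomputable def dev (μ : Measure Z) (τ : Z → Z) (s : Set Z) (N : ℕ) (z : Z) : ℝ :=
  (∑ n ∈ range N, s.indicator (fun _ => (1 : ℝ)) (τ^[n] z)) / (N : ℝ) - μ.real s

theorem dev_meas (μ : Measure Z) {τ : Z → Z} (hτ : Measurable τ) {s : Set Z}
    (hs : MeasurableSet s) (N : ℕ) : Measurable (dev μ τ s N) := by
  unfold dev
  refine Measurable.sub_const (Measurable.div_const (Finset.measurable_fun_sum _ fun n _ => ?_) _) _
  exact (measurable_const.indicator hs).comp (hτ.iterate n)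

omit [MeasurableSpace Z] in
theorem ind_le (s : Set Z) (z : Z) : 0 ≤ s.indicator (fun _ => (1 : ℝ)) z ∧
    s.indicator (fun _ => (1 : ℝ)) z ≤ 1 := by
  by_cases h : z ∈ s <;> simp [h]

theorem dev_bd (μ : Measure Z) [IsProbabilityMeasure μ] (τ : Z → Z) (s : Set Z) (N : ℕ) (z : Z) :
    |dev μ τ s N z| ≤ 1 := by
  have h1 : 0 ≤ ∑ n ∈ range N, s.indicator (fun _ => (1 : ℝ)) (τ^[n] z) :=
    Finset.sum_nonneg fun n _ => (ind_le s _).1
  have h2 : ∑ n ∈ range N, s.indicator (fun _ => (1 : ℝ)) (τ^[n] z) ≤ N := by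
    calc _ ≤ ∑ n ∈ range N, (1 : ℝ) := Finset.sum_le_sum fun n _ => (ind_le s _).2
      _ = N := by simp
  have h3 : 0 ≤ (∑ n ∈ range N, s.indicator (fun _ => (1 : ℝ)) (τ^[n] z)) / (N : ℝ) := by
    positivity
  have h4 : (∑ n ∈ range N, s.indicator (fun _ => (1 : ℝ)) (τ^[n] z)) / (N : ℝ) ≤ 1 :=
    div_le_one_of_le₀ h2 (by positivity)
  have h5 : 0 ≤ μ.real s := measureReal_nonneg
  have h6 : μ.real s ≤ 1 := measureReal_le_one
  unfold dev
  rw [abs_le]; constructor <;> linarith

theorem dev_shift (μ : Measure Z) (τ : Z → Z) (s : Set Z) (N : ℕ) (z : Z) :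
    |dev μ τ s N (τ z) - dev μ τ s N z| ≤ 1 / (N : ℝ) := by
  have h1 : ∑ n ∈ range N, s.indicator (fun _ => (1 : ℝ)) (τ^[n] (τ z)) =
      ∑ n ∈ range N, s.indicator (fun _ => (1 : ℝ)) (τ^[n] z) +
        s.indicator (fun _ => (1 : ℝ)) (τ^[N] z) - s.indicator (fun _ => (1 : ℝ)) z := by
    have e1 := Finset.sum_range_succ (fun n => s.indicator (fun _ => (1 : ℝ)) (τ^[n] z)) N
    have e2 := Finset.sum_range_succ' (fun n => s.indicator (fun _ => (1 : ℝ)) (τ^[n] z)) N
    simp only [Function.iterate_succ, Function.comp_apply, Function.iterate_zero, id] at e2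
    linarith
  unfold dev
  rw [h1]
  have h2 : (∑ n ∈ range N, s.indicator (fun _ => (1 : ℝ)) (τ^[n] z) +
        s.indicator (fun _ => (1 : ℝ)) (τ^[N] z) - s.indicator (fun _ => (1 : ℝ)) z) / (N : ℝ) -
        μ.real s - ((∑ n ∈ range N, s.indicator (fun _ => (1 : ℝ)) (τ^[n] z)) / (N : ℝ) -
        μ.real s) = (s.indicator (fun _ => (1 : ℝ)) (τ^[N] z) -
          s.indicator (fun _ => (1 : ℝ)) z) / (N : ℝ) := by ring
  rw [h2, abs_div, Nat.abs_cast]
  have a := ind_le s (τ^[N] z)
  have b := ind_le s z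
  have h3 : |s.indicator (fun _ => (1 : ℝ)) (τ^[N] z) - s.indicator (fun _ => (1 : ℝ)) z| ≤ 1 := by
    rw [abs_le]; constructor <;> linarith
  gcongr

/-- the average of the images of `ν` -/
noncomputable def avg (ν : Measure Z) (τ : Z → Z) (P : ℕ) : Measure Z :=
  ((P : ENNReal)⁻¹) • ∑ r ∈ range P, ν.map τ^[r]

theorem avg_apply (ν : Measure Z) {τ : Z → Z} (hτ : Measurable τ) (P : ℕ) {s : Set Z}
    (hs : MeasurableSet s) : avg ν τ P s = (P : ENNReal)⁻¹ * ∑ r ∈ range P, ν (τ^[r] ⁻¹' s) := by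
  unfold avg
  rw [Measure.smul_apply, Measure.finsetSum_apply, smul_eq_mul]
  congr 1
  exact Finset.sum_congr rfl fun r _ => Measure.map_apply (hτ.iterate r) hs

theorem avg_prob (ν : Measure Z) [IsProbabilityMeasure ν] {τ : Z → Z} (hτ : Measurable τ) {P : ℕ}
    (hP : 1 ≤ P) : IsProbabilityMeasure (avg ν τ P) := by
  constructor
  rw [avg_apply ν hτ P MeasurableSet.univ]
  simp only [Set.preimage_univ, measure_univ, Finset.sum_const, Finset.card_range, nsmul_eq_mul,
    mul_one]
  exact ENNReal.inv_mul_cancel (by exact_mod_cast (by lia : P ≠ 0)) (ENNReal.natCast_ne_top P)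

theorem avg_inv (ν : Measure Z) [IsProbabilityMeasure ν] {τ : Z → Z} (hτ : Measurable τ) {P : ℕ}
    (hν : MeasurePreserving τ^[P] ν ν) : MeasurePreserving τ (avg ν τ P) (avg ν τ P) := by
  refine ⟨hτ, ?_⟩
  ext s hs
  rw [Measure.map_apply hτ hs, avg_apply ν hτ P (hτ hs), avg_apply ν hτ P hs]
  congr 1
  have e1 := Finset.sum_range_succ (fun n => ν (τ^[n] ⁻¹' s)) P
  have e2 := Finset.sum_range_succ' (fun n => ν (τ^[n] ⁻¹' s)) P
  have e3 : ν (τ^[P] ⁻¹' s) = ν (τ^[0] ⁻¹' s) := by
    rw [hν.measure_preimage hs.nullMeasurableSet]; simp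
  have e4 : ∀ n, τ^[n] ⁻¹' (τ ⁻¹' s) = τ^[n + 1] ⁻¹' s := by
    intro n
    rw [← Set.preimage_comp, ← Function.iterate_succ']
  simp only [e4]
  rw [e1, e3] at e2
  exact ((ENNReal.add_left_inj (measure_ne_top ν _)).1 e2).symm

/-- EGN -/
theorem st_EGN (hE : ST_EMT) : ST_EGN := by
  intro Z _ _ μ _ τ hτ
  have hm : Measurable τ := hτ.measurable
  obtain ⟨c, hc, hgen, hpi⟩ := exists_pi Z
  -- convergence in mean
  have h0 : ∀ i, Tendsto (fun N : ℕ => ∫⁻ z, ‖dev μ τ (c i) N z‖ₑ ∂μ) atTop (𝓝 0) := by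
    intro i
    have h1 := hE Z μ τ hτ.toMeasurePreserving ((c i).indicator fun _ => (1 : ℝ))
      (measurable_const.indicator (hc i)) ⟨1, fun z => by
        have := ind_le (c i) z
        rw [abs_le]; constructor <;> linarith⟩
    have h2 : ∀ N : ℕ, ∫ z, |(∑ n ∈ range N, (c i).indicator (fun _ => (1 : ℝ)) (τ^[n] z)) /
        (N : ℝ) - (μ[(c i).indicator fun _ => (1 : ℝ)|MeasurableSpace.invariants τ]) z| ∂μ =
        ∫ z, ‖dev μ τ (c i) N z‖ ∂μ := by
      intro N
      refine integral_congr_ae ?_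
      filter_upwards [condExp_inv hτ ((c i).indicator fun _ => (1 : ℝ))] with z hz
      rw [hz, integral_indicator_const _ (hc i)]
      simp [dev]
    simp only [h2] at h1
    have h3 : ∀ N : ℕ, ∫⁻ z, ‖dev μ τ (c i) N z‖ₑ ∂μ =
        ENNReal.ofReal (∫ z, ‖dev μ τ (c i) N z‖ ∂μ) := by
      intro N
      rw [integral_norm_eq_lintegral_enorm (dev_meas μ hm (hc i) N).aestronglyMeasurable]
      rw [ENNReal.ofReal_toReal]
      refine ne_of_lt (lt_of_le_of_lt (lintegral_mono (g := fun _ => (1 : ENNReal)) fun z => ?_)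
        (by simp))
      rw [← ofReal_norm]
      exact ENNReal.ofReal_le_one.2 (dev_bd μ τ (c i) N z)
    simp only [h3]
    have := (ENNReal.continuous_ofReal.tendsto 0).comp h1
    simpa [Function.comp_def] using this
  -- a common subsequence
  have h1 : ∀ j : ℕ, ∃ N : ℕ, j ≤ N ∧ ∀ i ∈ Finset.range (j + 1),
      ∫⁻ z, ‖dev μ τ (c i) N z‖ₑ ∂μ ≤ (2 : ENNReal)⁻¹ ^ j := by
    intro j
    have hpos : (0 : ENNReal) < (2 : ENNReal)⁻¹ ^ j := by
      apply ENNReal.pow_pos; simp
    have : ∀ᶠ N : ℕ in atTop, ∀ i ∈ Finset.range (j + 1),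
        ∫⁻ z, ‖dev μ τ (c i) N z‖ₑ ∂μ ≤ (2 : ENNReal)⁻¹ ^ j :=
      (Finset.range (j + 1)).eventually_all.2 fun i _ => (h0 i).eventually (eventually_le_nhds hpos)
    obtain ⟨N, hN1, hN2⟩ := (this.and (eventually_ge_atTop j)).exists
    exact ⟨N, hN2, hN1⟩
  choose Nj hNj hNi using h1
  have hNt : Tendsto Nj atTop atTop := tendsto_atTop_mono hNj tendsto_id
  -- almost everywhere convergence
  have hae : ∀ᵐ z ∂μ, ∀ i, Tendsto (fun j => dev μ τ (c i) (Nj j) z) atTop (𝓝 0) := by
    rw [ae_all_iff]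
    intro i
    have h2 : ∫⁻ z, ∑' j : ℕ, ‖dev μ τ (c i) (Nj (j + i)) z‖ₑ ∂μ ≠ ⊤ := by
      rw [lintegral_tsum fun j => (dev_meas μ hm (hc i) _).enorm.aemeasurable]
      refine ne_of_lt (lt_of_le_of_lt (ENNReal.tsum_le_tsum fun j => ?_)
        (?_ : ∑' j : ℕ, (2 : ENNReal)⁻¹ ^ j < ⊤))
      · refine (hNi (j + i) i (Finset.mem_range.2 (by lia))).trans ?_
        rw [pow_add]
        refine mul_le_of_le_one_right' (pow_le_one' ?_ i)
        simp
      · rw [ENNReal.tsum_geometric]
        simp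
    filter_upwards [ae_lt_top' (AEMeasurable.tsum fun j =>
      (dev_meas μ hm (hc i) _).enorm.aemeasurable) h2] with z hz
    have h3 := ENNReal.tendsto_atTop_zero_of_tsum_ne_top hz.ne
    rw [← tendsto_add_atTop_iff_nat i]
    rw [tendsto_zero_iff_norm_tendsto_zero]
    have h4 := (ENNReal.tendsto_toReal (by simp : (0 : ENNReal) ≠ ⊤)).comp h3
    simpa [Function.comp_def] using h4
  set A : Set Z := {z | ∀ i, Tendsto (fun j => dev μ τ (c i) (Nj j) z) atTop (𝓝 0)} with hA
  have hAm : MeasurableSet A := by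
    rw [hA, Set.ofPred_forall]
    exact MeasurableSet.iInter fun i => measurableSet_tendsto _ fun j => dev_meas μ hm (hc i) _
  have hAi : ∀ z ∈ A, τ z ∈ A := by
    intro z hz i
    have h2 : Tendsto (fun j => dev μ τ (c i) (Nj j) (τ z) - dev μ τ (c i) (Nj j) z) atTop
        (𝓝 0) := by
      refine squeeze_zero_norm (fun j => ?_) ((tendsto_one_div_atTop_nhds_zero_nat (𝕜 := ℝ)).comp hNt)
      exact dev_shift μ τ (c i) (Nj j) z
    have h3 := h2.add (hz i)
    simpa using h3
  have hAr : ∀ r : ℕ, ∀ z ∈ A, τ^[r] z ∈ A := by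
    intro r
    induction r with
    | zero => intro z hz; simpa using hz
    | succ r ih => intro z hz; rw [Function.iterate_succ_apply']; exact hAi _ (ih z hz)
  refine ⟨A, hAm, hae, ?_⟩
  intro P ν hP hνp hν hνA s hs
  have := hνp
  have := avg_prob ν hm hP
  have hinv := avg_inv ν hm hν
  have hνA' : ∀ᵐ z ∂(avg ν τ P), z ∈ A := by
    rw [ae_iff]
    change avg ν τ P Aᶜ = 0
    rw [avg_apply ν hm P hAm.compl]
    rw [Finset.sum_eq_zero, mul_zero]
    intro r _
    refine measure_mono_null (fun z hz => ?_) hνA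
    intro hzA
    exact hz (hAr r z hzA)
  have hAeq : avg ν τ P = μ := by
    refine ext_of_generate_finite (Set.range c) hgen hpi ?_ (by simp)
    rintro _ ⟨i, rfl⟩
    have h2 : Tendsto (fun j : ℕ => ∫ z, dev μ τ (c i) (Nj j) z ∂(avg ν τ P)) atTop
        (𝓝 (∫ _, (0 : ℝ) ∂(avg ν τ P))) := by
      refine tendsto_integral_of_dominated_convergence (fun _ => (1 : ℝ))
        (fun j => (dev_meas μ hm (hc i) _).aestronglyMeasurable) (integrable_const _)
        (fun j => Eventually.of_forall fun z => dev_bd μ τ (c i) _ z) ?_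
      filter_upwards [hνA'] with z hz
      exact hz i
    have h3 : ∀ N : ℕ, 1 ≤ N → ∫ z, dev μ τ (c i) N z ∂(avg ν τ P) =
        (avg ν τ P).real (c i) - μ.real (c i) := by
      intro N hN
      have hint : ∀ n : ℕ, Integrable (fun z => (c i).indicator (fun _ => (1 : ℝ)) (τ^[n] z))
          (avg ν τ P) := by
        intro n
        refine Integrable.of_bound
          ((measurable_const.indicator (hc i)).comp (hm.iterate n)).aestronglyMeasurable 1
          (Eventually.of_forall fun z => ?_)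
        have := ind_le (c i) (τ^[n] z)
        rw [Real.norm_eq_abs, abs_le]; constructor <;> linarith
      have hval : ∀ n : ℕ, ∫ z, (c i).indicator (fun _ => (1 : ℝ)) (τ^[n] z) ∂(avg ν τ P) =
          (avg ν τ P).real (c i) := by
        intro n
        have h5 : ∫ z, (c i).indicator (fun _ => (1 : ℝ)) z ∂((avg ν τ P).map τ^[n]) =
            ∫ z, (c i).indicator (fun _ => (1 : ℝ)) (τ^[n] z) ∂(avg ν τ P) :=
          integral_map (hm.iterate n).aemeasurable
            (measurable_const.indicator (hc i)).aestronglyMeasurable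
        rw [← h5, (hinv.iterate n).map_eq, integral_indicator_const _ (hc i)]
        simp
      unfold dev
      rw [integral_sub ((integrable_finsetSum _ fun n _ => hint n).div_const _)
        (integrable_const _), integral_div, integral_finsetSum _ fun n _ => hint n]
      simp only [hval, Finset.sum_const, Finset.card_range, nsmul_eq_mul, integral_const,
        smul_eq_mul]
      have hN' : (N : ℝ) ≠ 0 := by exact_mod_cast (by lia : N ≠ 0)
      simp [hN']
    have h4 : Tendsto (fun j : ℕ => ∫ z, dev μ τ (c i) (Nj j) z ∂(avg ν τ P)) atTop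
        (𝓝 ((avg ν τ P).real (c i) - μ.real (c i))) := by
      refine tendsto_const_nhds.congr' ?_
      filter_upwards [hNt.eventually (eventually_ge_atTop 1)] with j hj
      exact (h3 _ hj).symm
    have h5 := tendsto_nhds_unique h2 h4
    have h6 : (avg ν τ P).real (c i) = μ.real (c i) := by
      simp at h5; linarith
    rw [measureReal_eq_measureReal_iff] at h6
    exact h6
  rw [← hAeq, avg_apply ν hm P hs, ← mul_assoc, ENNReal.mul_inv_cancel
    (by exact_mod_cast (by lia : P ≠ 0)) (ENNReal.natCast_ne_top P), one_mul]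
  have h7 := Finset.single_le_sum (s := range P) (f := fun r => ν (τ^[r] ⁻¹' s))
    (fun _ _ => zero_le) (Finset.mem_range.2 (by lia : 0 < P))
  simpa using h7

end

end Pool.Agent.Helper99.ZU
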