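import Pool.Agent.Helper40.ZU.Stmts
import Pool.Agent.Helper55.ZB.ZTP

/-!
Row TCB of the sheet ZU (MP_7a8f48_an): correlations for ergodic towers and all invariant measures
on the square.
-/

open MeasureTheory Filter Topology Finset ProbabilityTheory
open scoped ComplexConjugate

namespace Pool.Agent.Helper99.ZU

open Pool.Agent.Helper40.ZU
open Pool.Agent.Helper98.TW (SA BF Sys)
open Pool.Agent.Helper98.ZA (pr co Pe)
open Pool.Agent.Helper98.ZB (Tw Ev Cl Ra Co)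
open Pool.Agent.Helper16.AZ (E Op)
open Pool.Agent.Helper16.BZ (Wk EE)

/-- integrals and kernels -/
theorem integral_mix {Z : Type} [MeasurableSpace Z] (κ : Measure Z) [IsProbabilityMeasure κ]
    (K : Kernel Z Z) [IsMarkovKernel K] (hK : κ.bind K = κ) {f : Z → ℂ}
    (hf : StronglyMeasurable f) {C : ℝ} (hC : ∀ z, ‖f z‖ ≤ C) :
    ∫ z, f z ∂κ = ∫ w, ∫ z, f z ∂(K w) ∂κ := by
  have h1 : (K ∘ₖ Kernel.const Unit κ) () = κ := by
    rw [← Measure.comp_eq_comp_const_apply]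
    exact hK
  have h2 : Integrable f ((K ∘ₖ Kernel.const Unit κ) ()) := by
    rw [h1]
    exact Integrable.of_bound hf.aestronglyMeasurable C (Eventually.of_forall hC)
  have h3 := Kernel.integral_comp h2
  rw [h1] at h3
  simpa using h3

/-- mixtures of measures with small correlations -/
theorem mix_le {Z : Type} [MeasurableSpace Z] (κ : Measure Z) [IsProbabilityMeasure κ]
    (K : Kernel Z Z) [IsMarkovKernel K] (hK : κ.bind K = κ) (Φ : ℕ → Z → ℂ)
    (hΦ : ∀ H, StronglyMeasurable (Φ H)) (C : ℝ) (hC : ∀ H z, ‖Φ H z‖ ≤ C * (H : ℝ) ^ 2)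
    (β ε : ℝ) (hε : 0 < ε)
    (h : ∀ᵐ w ∂κ, ∀ᶠ H : ℕ in atTop, ‖∫ z, Φ H z ∂(K w)‖ ≤ (β + ε / 2) * (H : ℝ) ^ 2) :
    ∀ᶠ H : ℕ in atTop, ‖∫ z, Φ H z ∂κ‖ ≤ (β + ε) * (H : ℝ) ^ 2 := by
  set g : ℕ → Z → ℝ := fun H w => max (‖∫ z, Φ H z ∂(K w)‖ / (H : ℝ) ^ 2 - (β + ε / 2)) 0 with hg
  have hm : ∀ H, StronglyMeasurable (fun w => ∫ z, Φ H z ∂(K w)) := fun H =>
    (hΦ H).integral_kernel
  have hgm : ∀ H, Measurable (g H) := fun H =>
    (((hm H).norm.measurable.div_const _).sub_const _).max measurable_const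
  have hn : ∀ H w, ‖∫ z, Φ H z ∂(K w)‖ ≤ C * (H : ℝ) ^ 2 := by
    intro H w
    have := norm_integral_le_of_norm_le_const (μ := K w) (Eventually.of_forall (hC H))
    simpa using this
  have hC0 : 0 ≤ C := by
    have h1 := (norm_nonneg (∫ z, Φ 1 z ∂κ)).trans
      (norm_integral_le_of_norm_le_const (μ := κ) (Eventually.of_forall (hC 1)))
    simpa using h1
  have hq : ∀ (H : ℕ) (w : Z), ‖∫ z, Φ H z ∂(K w)‖ / (H : ℝ) ^ 2 ≤ C := by
    intro H w
    exact div_le_of_le_mul₀ (by positivity) hC0 (hn H w)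
  have hgb : ∀ H w, ‖g H w‖ ≤ C + |β + ε / 2| := by
    intro H w
    rw [Real.norm_eq_abs, abs_of_nonneg (le_max_right _ _)]
    have h1 := hq H w
    have h2 := neg_abs_le (β + ε / 2)
    have h3 := abs_nonneg (β + ε / 2)
    refine max_le ?_ ?_ <;> linarith
  have ht : Tendsto (fun H : ℕ => ∫ w, g H w ∂κ) atTop (𝓝 (∫ _, (0 : ℝ) ∂κ)) := by
    refine tendsto_integral_of_dominated_convergence (fun _ => C + |β + ε / 2|)
      (fun H => (hgm H).aestronglyMeasurable) (integrable_const _)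
      (fun H => Eventually.of_forall (hgb H)) ?_
    filter_upwards [h] with w hw
    refine tendsto_const_nhds.congr' ?_
    filter_upwards [hw, eventually_ge_atTop 1] with H hH hH1
    have hp : (0 : ℝ) < (H : ℝ) ^ 2 := by
      have : (1 : ℝ) ≤ H := by exact_mod_cast hH1
      positivity
    have h1 : ‖∫ z, Φ H z ∂(K w)‖ / (H : ℝ) ^ 2 ≤ β + ε / 2 := by
      rw [div_le_iff₀ hp]; exact hH
    rw [hg]
    exact (max_eq_right (by linarith)).symm
  rw [integral_zero] at ht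
  filter_upwards [ht.eventually (eventually_lt_nhds (half_pos hε)), eventually_ge_atTop 1] with
    H hH hH1
  have hp : (0 : ℝ) < (H : ℝ) ^ 2 := by
    have : (1 : ℝ) ≤ H := by exact_mod_cast hH1
    positivity
  rw [integral_mix κ K hK (hΦ H) (hC H)]
  have hgi : Integrable (g H) κ :=
    Integrable.of_bound (hgm H).aestronglyMeasurable _ (Eventually.of_forall (hgb H))
  have h1 : ∀ w, ‖∫ z, Φ H z ∂(K w)‖ ≤ (g H w + (β + ε / 2)) * (H : ℝ) ^ 2 := by
    intro w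
    have h2 : ‖∫ z, Φ H z ∂(K w)‖ / (H : ℝ) ^ 2 - (β + ε / 2) ≤ g H w := le_max_left _ _
    have h3 : ‖∫ z, Φ H z ∂(K w)‖ / (H : ℝ) ^ 2 ≤ g H w + (β + ε / 2) := by linarith
    rwa [div_le_iff₀ hp] at h3
  calc ‖∫ w, ∫ z, Φ H z ∂(K w) ∂κ‖ ≤ ∫ w, ‖∫ z, Φ H z ∂(K w)‖ ∂κ := norm_integral_le_integral_norm _
    _ ≤ ∫ w, (g H w + (β + ε / 2)) * (H : ℝ) ^ 2 ∂κ := by
        refine integral_mono ?_ ?_ h1
        · exact Integrable.of_bound (hm H).norm.aestronglyMeasurable (C * (H : ℝ) ^ 2)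
            (Eventually.of_forall fun w => by rw [norm_norm]; exact hn H w)
        · exact (hgi.add (integrable_const _)).mul_const _
    _ = (∫ w, g H w ∂κ + (β + ε / 2)) * (H : ℝ) ^ 2 := by
        rw [integral_mul_const, integral_add hgi (integrable_const _)]
        simp
    _ ≤ (β + ε) * (H : ℝ) ^ 2 := mul_le_mul_of_nonneg_right (by linarith) hp.le

/-- the components have absolutely continuous marginals -/
theorem marg {Z Ω : Type} [MeasurableSpace Z] [MeasurableSpace Ω] {μ : Measure Ω} {R : Ω → Ω}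
    {A : Set Ω} (hA : MeasurableSet A) (hA0 : μ Aᶜ = 0)
    (hG : ∀ (P : ℕ) (ν : Measure Ω), 1 ≤ P → IsProbabilityMeasure ν →
      MeasurePreserving R^[P] ν ν → ν Aᶜ = 0 → ∀ s : Set Ω, MeasurableSet s → ν s ≤ P * μ s)
    (κ : Measure Z) (K : Kernel Z Z) [IsMarkovKernel K] (hK : κ.bind K = κ) {τ : Z → Z}
    (π : Z → Ω) (hπ : Measurable π) (hκ : κ.map π ≪ μ) {P : ℕ} (hP : 1 ≤ P)
    (hR : Measurable R) (hπτ : ∀ z, π (τ z) = R^[P] (π z)) :
    ∀ᵐ w ∂κ, MeasurePreserving τ (K w) (K w) → (K w).map π ≪ μ := by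
  have h1 : κ (π ⁻¹' Aᶜ) = 0 := by
    rw [← Measure.map_apply hπ hA.compl]; exact hκ hA0
  have h2 : ∀ᵐ w ∂κ, K w (π ⁻¹' Aᶜ) = 0 := by
    rw [← hK] at h1
    rw [Measure.bind_apply (hπ hA.compl) K.aemeasurable, lintegral_eq_zero_iff
      (K.measurable_coe (hπ hA.compl))] at h1
    exact h1
  filter_upwards [h2] with w hw hmp
  have hprob : IsProbabilityMeasure ((K w).map π) :=
    Measure.isProbabilityMeasure_map hπ.aemeasurable
  have hinv : MeasurePreserving R^[P] ((K w).map π) ((K w).map π) := by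
    refine ⟨hR.iterate P, ?_⟩
    rw [Measure.map_map (hR.iterate P) hπ]
    have e1 : R^[P] ∘ π = π ∘ τ := by
      funext z; exact (hπτ z).symm
    rw [e1, ← Measure.map_map hπ hmp.measurable, hmp.map_eq]
  have h0 : (K w).map π Aᶜ = 0 := by
    rw [Measure.map_apply hπ hA.compl]; exact hw
  refine Measure.AbsolutelyContinuous.mk fun s hs hs0 => ?_
  have h3 := hG P _ hP hprob hinv h0 s hs
  rw [hs0, mul_zero] at h3
  exact le_antisymm h3 zero_le

/-- TCB -/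
theorem st_TCB (hZ : Pool.Agent.Helper98.ZB.ST_ZCB) (hD : ST_EDI) (hN : ST_EGN) : ST_TCB := by
  intro Ω _ _ μ _ R R' u N k B d φ c c₀ hs he hp hφ hφu hc hcb hr ε hε
  obtain ⟨P₀, hP₀⟩ := hZ Ω μ R R' u N k B d φ c c₀ hs he hp hφ hφu hc hcb hr (ε / 2)
    (half_pos hε)
  refine ⟨P₀, fun p hpp hppr q hqp hqpr hpq κ hκ hmp h1 h2 => ?_⟩
  obtain ⟨b, hb⟩ := hcb
  obtain ⟨K, hKm, hK, hKe⟩ := hD (Ω × Ω) κ _ hmp
  obtain ⟨A, hA, hA0, hG⟩ := hN Ω μ R he
  have hRm : Measurable R := hs.mp.measurable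
  have hpk : 1 ≤ p * k := Nat.mul_pos hppr.pos hp.pos
  have hqk : 1 ≤ q * k := Nat.mul_pos hqpr.pos hp.pos
  have m1 := marg hA hA0 hG κ K hK (τ := Prod.map R^[p * k] R^[q * k]) Prod.fst measurable_fst h1
    hpk hRm (fun z => rfl)
  have m2 := marg hA hA0 hG κ K hK (τ := Prod.map R^[p * k] R^[q * k]) Prod.snd measurable_snd h2
    hqk hRm (fun z => rfl)
  -- the functions
  have hE : ∀ n n' : ℕ, StronglyMeasurable (EE R φ c n n') := fun n n' =>
    Pool.Agent.Helper55.ZB.ee_sm hRm hφ hc n n'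
  have hEb : ∀ (n n' : ℕ) (x : Ω), ‖EE R φ c n n' x‖ ≤ b ^ 2 := fun n n' x =>
    Pool.Agent.Helper16.BZ.EE_norm R φ c hφu b hb n n' x
  have hsm : ∀ n n' l l' : ℕ, StronglyMeasurable (fun z : Ω × Ω => EE R φ c n n' z.1 *
      conj (EE R φ c l l' z.2)) := by
    intro n n' l l'
    have a1 := (hE n n').comp_measurable (measurable_fst : Measurable (Prod.fst : Ω × Ω → Ω))
    have a2 := (hE l l').comp_measurable (measurable_snd : Measurable (Prod.snd : Ω × Ω → Ω))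
    exact a1.mul (Complex.continuous_conj.comp_stronglyMeasurable a2)
  have hbd : ∀ (n n' l l' : ℕ) (z : Ω × Ω), ‖EE R φ c n n' z.1 *
      conj (EE R φ c l l' z.2)‖ ≤ b ^ 2 * b ^ 2 := by
    intro n n' l l' z
    rw [norm_mul, RCLike.norm_conj]
    exact mul_le_mul (hEb _ _ _) (hEb _ _ _) (norm_nonneg _) (by positivity)
  set Φ : ℕ → Ω × Ω → ℂ := fun H z => ∑ h ∈ range H, ∑ h' ∈ range H,
    EE R φ c (p * k * h) (p * k * h') z.1 * conj (EE R φ c (q * k * h) (q * k * h') z.2) with hΦ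
  have hΦm : ∀ H, StronglyMeasurable (Φ H) := fun H =>
    Finset.stronglyMeasurable_fun_sum _ fun h _ => Finset.stronglyMeasurable_fun_sum _ fun h' _ =>
      hsm _ _ _ _
  have hΦb : ∀ H z, ‖Φ H z‖ ≤ (b ^ 2 * b ^ 2) * (H : ℝ) ^ 2 := by
    intro H z
    calc ‖Φ H z‖ ≤ ∑ h ∈ range H, ∑ h' ∈ range H, (b ^ 2 * b ^ 2) :=
          norm_sum_le_of_le _ fun h _ => norm_sum_le_of_le _ fun h' _ => hbd _ _ _ _ _
      _ = (b ^ 2 * b ^ 2) * (H : ℝ) ^ 2 := by simp; ring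
  have hint : ∀ (κ' : Measure (Ω × Ω)) [IsProbabilityMeasure κ'] (H : ℕ), ∫ z, Φ H z ∂κ' =
      ∑ h ∈ range H, ∑ h' ∈ range H, ∫ z, EE R φ c (p * k * h) (p * k * h') z.1 *
        conj (EE R φ c (q * k * h) (q * k * h') z.2) ∂κ' := by
    intro κ' _ H
    have hi : ∀ n n' l l' : ℕ, Integrable (fun z : Ω × Ω => EE R φ c n n' z.1 *
        conj (EE R φ c l l' z.2)) κ' := fun n n' l l' =>
      Integrable.of_bound (hsm _ _ _ _).aestronglyMeasurable _ (Eventually.of_forall (hbd _ _ _ _))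
    rw [hΦ]
    rw [integral_finsetSum _ fun h _ => integrable_finsetSum _ fun h' _ => hi _ _ _ _]
    refine Finset.sum_congr rfl fun h _ => ?_
    rw [integral_finsetSum _ fun h' _ => hi _ _ _ _]
  have key := mix_le κ K hK Φ hΦm (b ^ 2 * b ^ 2) hΦb
    (2 * (k : ℝ) ^ 2 * (∫ x, ‖c x‖ ^ 2 ∂μ) * (∫ x, ‖c x - c₀ x‖ ^ 2 ∂μ)) ε hε ?_
  · filter_upwards [key] with H hH
    rw [hint κ H] at hH
    exact hH
  · filter_upwards [hKe, m1, m2] with w hw hw1 hw2
    have h3 := hP₀ p hpp hppr q hqp hqpr hpq (K w) inferInstance hw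
      (hw1 hw.toMeasurePreserving) (hw2 hw.toMeasurePreserving)
    filter_upwards [h3] with H hH
    rw [hint (K w) H]
    exact hH

end Pool.Agent.Helper99.ZU
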