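import Pool.Agent.Helper40.ZU.Stmts2
import Pool.Agent.Helper89.GY.MOD
import Pool.Agent.Helper72.GY.EQC

/-!
Row XMO of the sheet ZU (MP_7a8f48_an): almost all fibres of an isometric extension are isometric.
-/

open MeasureTheory Filter Topology Set

namespace Pool.Agent.Helper99.ZU

open Pool.Agent.Helper40.ZU
open Pool.Agent.Helper98.GY (IsoExt Emb)
open Pool.Agent.Helper89.GY (Fib fibMetric fib_compact emb_mk mod_surj)

/-- isometric maps between fibres, limits of the iterates along an ultrafilter -/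
theorem fib_iso {X Y : Type} [MetricSpace X] [CompactSpace X] [MetricSpace Y] {π : X → Y}
    {S : Y → Y} {T : X → X} {ρ : X → X → ℝ} (hI : IsoExt π S T ρ) {y₀ y₁ : Y}
    (hd : y₁ ∈ closure (Set.range fun n : ℕ => S^[n] y₀)) :
    ∃ g : X → X, ∀ x, π x = y₀ → π (g x) = y₁ ∧ ∀ x', π x' = y₀ → ρ (g x) (g x') = ρ x x' := by
  obtain ⟨hπ, hc, hρc, hρ0, hρs, hρt, hρi⟩ := hI
  have hne : (Filter.comap (fun n : ℕ => S^[n] y₀) (𝓝 y₁)).NeBot := by
    rw [Filter.comap_neBot_iff]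
    intro t ht
    obtain ⟨z, hz, n, hn⟩ := mem_closure_iff_nhds.mp hd t ht
    exact ⟨n, by simpa only [hn] using hz⟩
  let U : Ultrafilter ℕ := Ultrafilter.of (Filter.comap (fun n : ℕ => S^[n] y₀) (𝓝 y₁))
  have hU : Tendsto (fun n : ℕ => S^[n] y₀) U (𝓝 y₁) :=
    tendsto_comap.mono_left (Ultrafilter.of_le _)
  have hpi : ∀ (n : ℕ) (x : X), π (T^[n] x) = S^[n] (π x) := by
    intro n x
    induction n with
    | zero => rfl
    | succ n ih => rw [Function.iterate_succ_apply', Function.iterate_succ_apply', hc, ih]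
  have hri : ∀ (n : ℕ) (x x' : X), π x = π x' → ρ (T^[n] x) (T^[n] x') = ρ x x' := by
    intro n x x' h
    induction n with
    | zero => rfl
    | succ n ih =>
      rw [Function.iterate_succ_apply', Function.iterate_succ_apply', hρi _ _ ?_, ih]
      rw [hpi, hpi, h]
  have hg : ∀ x : X, Tendsto (fun n : ℕ => T^[n] x) U (𝓝 (U.map fun n : ℕ => T^[n] x).lim) :=
    fun x => Ultrafilter.le_nhds_lim (U.map fun n : ℕ => T^[n] x)
  have hgp : ∀ x, π x = y₀ → π ((U.map fun n : ℕ => T^[n] x).lim) = y₁ := by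
    intro x hx
    have h1 : Tendsto (fun n : ℕ => π (T^[n] x)) U (𝓝 (π ((U.map fun n : ℕ => T^[n] x).lim))) :=
      (hπ.tendsto _).comp (hg x)
    refine tendsto_nhds_unique h1 ?_
    refine hU.congr fun n => ?_
    rw [hpi, hx]
  refine ⟨fun x => (U.map fun n : ℕ => T^[n] x).lim, fun x hx => ⟨hgp x hx, fun x' hx' => ?_⟩⟩
  have h1 := hgp x hx
  have h2 := hgp x' hx'
  have h3 : Tendsto (fun n : ℕ => (T^[n] x, T^[n] x')) U
      (𝓝[{z : X × X | π z.1 = π z.2}] ((U.map fun n : ℕ => T^[n] x).lim,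
        (U.map fun n : ℕ => T^[n] x').lim)) := by
    rw [tendsto_nhdsWithin_iff]
    refine ⟨(hg x).prodMk_nhds (hg x'), Eventually.of_forall fun n => ?_⟩
    show π (T^[n] x) = π (T^[n] x')
    rw [hpi, hpi, hx, hx']
  have h4 := (hρc _ (show π ((U.map fun n : ℕ => T^[n] x).lim) =
    π ((U.map fun n : ℕ => T^[n] x').lim) by rw [h1, h2])).tendsto.comp h3
  refine tendsto_nhds_unique h4 ?_
  refine tendsto_const_nhds.congr fun n => ?_
  exact (hri n x x' (by rw [hx, hx'])).symm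

section

variable {Y : Type} [TopologicalSpace Y] [SecondCountableTopology Y] [MeasurableSpace Y]

/-- the points of the support whose orbits return to all basic open sets of positive measure -/
def Gen (ν : Measure Y) (S : Y → Y) : Set Y := {y | ∀ U ∈ TopologicalSpace.countableBasis Y,
  (y ∈ U → ν U ≠ 0) ∧ (ν U ≠ 0 → ∀ N : ℕ, ∃ n ≥ N, S^[n] y ∈ U)}

omit [SecondCountableTopology Y] in
theorem vis_meas [OpensMeasurableSpace Y] {S : Y → Y} (hS : Measurable S) {U : Set Y}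
    (hU : IsOpen U) : MeasurableSet {y | ∀ N : ℕ, ∃ n ≥ N, S^[n] y ∈ U} := by
  have h1 : {y | ∀ N : ℕ, ∃ n ≥ N, S^[n] y ∈ U} = ⋂ N : ℕ, ⋃ n ≥ N, S^[n] ⁻¹' U := by
    ext y; simp
  rw [h1]
  exact MeasurableSet.iInter fun N => MeasurableSet.iUnion fun n => MeasurableSet.iUnion fun _ =>
    (hS.iterate n) hU.measurableSet

theorem gen_meas [OpensMeasurableSpace Y] (ν : Measure Y) {S : Y → Y} (hS : Measurable S) :
    MeasurableSet (Gen ν S) := by
  have h1 : Gen ν S = ⋂ U ∈ TopologicalSpace.countableBasis Y,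
      ({y | y ∈ U → ν U ≠ 0} ∩ {y | ν U ≠ 0 → ∀ N : ℕ, ∃ n ≥ N, S^[n] y ∈ U}) := by
    ext y; simp [Gen]
  rw [h1]
  refine MeasurableSet.biInter (TopologicalSpace.countable_countableBasis Y) fun U hU => ?_
  have hUo : IsOpen U := TopologicalSpace.isOpen_of_mem_countableBasis hU
  refine MeasurableSet.inter ?_ ?_
  · by_cases h0 : ν U = 0
    · have : {y | y ∈ U → ν U ≠ 0} = Uᶜ := by ext y; simp [h0]
      rw [this]; exact hUo.measurableSet.compl
    · have : {y | y ∈ U → ν U ≠ 0} = univ := by ext y; simp [h0]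
      rw [this]; exact MeasurableSet.univ
  · by_cases h0 : ν U = 0
    · have : {y | ν U ≠ 0 → ∀ N : ℕ, ∃ n ≥ N, S^[n] y ∈ U} = univ := by ext y; simp [h0]
      rw [this]; exact MeasurableSet.univ
    · have : {y | ν U ≠ 0 → ∀ N : ℕ, ∃ n ≥ N, S^[n] y ∈ U} =
          {y | ∀ N : ℕ, ∃ n ≥ N, S^[n] y ∈ U} := by ext y; simp [h0]
      rw [this]; exact vis_meas hS hUo

theorem gen_ae [OpensMeasurableSpace Y] {ν : Measure Y} [IsProbabilityMeasure ν] {S : Y → Y}
    (hS : Ergodic S ν) : ∀ᵐ y ∂ν, y ∈ Gen ν S := by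
  have h1 : ∀ U ∈ TopologicalSpace.countableBasis Y, ∀ᵐ y ∂ν,
      (y ∈ U → ν U ≠ 0) ∧ (ν U ≠ 0 → ∀ N : ℕ, ∃ n ≥ N, S^[n] y ∈ U) := by
    intro U hU
    have hUo : IsOpen U := TopologicalSpace.isOpen_of_mem_countableBasis hU
    by_cases h0 : ν U = 0
    · filter_upwards [measure_eq_zero_iff_ae_notMem.1 h0] with y hy
      exact ⟨fun h => (hy h).elim, fun h => (h h0).elim⟩
    · have hA := vis_meas hS.measurable hUo
      have hinv : S ⁻¹' {y | ∀ N : ℕ, ∃ n ≥ N, S^[n] y ∈ U} =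
          {y | ∀ N : ℕ, ∃ n ≥ N, S^[n] y ∈ U} := by
        ext y
        constructor
        · intro h N
          obtain ⟨n, hn, hn'⟩ := h N
          exact ⟨n + 1, by lia, by rwa [Function.iterate_succ_apply]⟩
        · intro h N
          obtain ⟨n, hn, hn'⟩ := h (N + 1)
          obtain ⟨k, rfl⟩ : ∃ k, n = k + 1 := ⟨n - 1, by lia⟩
          exact ⟨k, by lia, by rwa [Function.iterate_succ_apply] at hn'⟩
      have hpos : ν {y | ∀ N : ℕ, ∃ n ≥ N, S^[n] y ∈ U} ≠ 0 := by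
        intro h2
        have h3 := (hS.toMeasurePreserving.conservative).ae_mem_imp_frequently_image_mem
          hUo.measurableSet.nullMeasurableSet
        refine h0 (measure_mono_null_ae ?_ h2)
        filter_upwards [h3] with y hy hyU
        exact frequently_atTop.1 (hy hyU)
      have h4 : ν {y | ∀ N : ℕ, ∃ n ≥ N, S^[n] y ∈ U}ᶜ = 0 := by
        rcases hS.toPreErgodic.measure_self_or_compl_eq_zero hA hinv with h | h
        · exact (hpos h).elim
        · exact h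
      have h5 : ∀ᵐ y ∂ν, y ∈ {y | ∀ N : ℕ, ∃ n ≥ N, S^[n] y ∈ U} := h4
      filter_upwards [h5] with y hy
      exact ⟨fun _ => h0, fun _ => hy⟩
  exact (ae_ball_iff (TopologicalSpace.countable_countableBasis Y)).2 h1

theorem gen_inv [OpensMeasurableSpace Y] {ν : Measure Y} {S : Y → Y} (hS : Continuous S)
    (hm : MeasurePreserving S ν ν) {y : Y} (hy : y ∈ Gen ν S) : S y ∈ Gen ν S := by
  intro U hU
  have hUo : IsOpen U := TopologicalSpace.isOpen_of_mem_countableBasis hU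
  refine ⟨fun h => ?_, fun h N => ?_⟩
  · obtain ⟨V, hV, hyV, hVU⟩ := (TopologicalSpace.isBasis_countableBasis Y).exists_subset_of_mem_open
      (show y ∈ S ⁻¹' U from h) (hUo.preimage hS)
    have h1 := (hy V hV).1 hyV
    intro h2
    apply h1
    refine measure_mono_null hVU ?_
    rw [hm.measure_preimage hUo.measurableSet.nullMeasurableSet]
    exact h2
  · obtain ⟨n, hn, hn'⟩ := (hy U hU).2 h (N + 1)
    obtain ⟨k, rfl⟩ : ∃ k, n = k + 1 := ⟨n - 1, by lia⟩
    exact ⟨k, by lia, by rwa [Function.iterate_succ_apply] at hn'⟩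

theorem gen_dense {ν : Measure Y} {S : Y → Y} {y y' : Y} (hy : y ∈ Gen ν S)
    (hy' : y' ∈ Gen ν S) : y' ∈ closure (Set.range fun n : ℕ => S^[n] y) := by
  rw [mem_closure_iff]
  intro O hO hyO
  obtain ⟨V, hV, hyV, hVO⟩ := (TopologicalSpace.isBasis_countableBasis Y).exists_subset_of_mem_open
    hyO hO
  obtain ⟨n, -, hn⟩ := (hy V hV).2 ((hy' V hV).1 hyV) 0
  exact ⟨_, hVO hn, n, rfl⟩

end

/-- XMO -/
theorem st_XMO : ST_XMO := by
  intro X Y _ _ _ _ _ _ π S T ρ ν _ hI hSc hE hfib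
  have hC := Pool.Agent.Helper89.GY.st_CMP
  have hQ := Pool.Agent.Helper72.GY.st_EQC hC
  have hsc : SecondCountableTopology Y := inferInstance
  -- a good point
  obtain ⟨ys, hys, x₀, hx₀⟩ := ((gen_ae hE).and hfib).exists
  let _ := fibMetric hI ys
  have _ := fib_compact hC hI ys
  refine ⟨Fib π ys, inferInstance, inferInstance, ⟨⟨x₀, hx₀⟩⟩, Gen ν S,
    gen_meas ν hE.measurable, gen_ae hE, fun y hy => gen_inv hSc hE.toMeasurePreserving hy,
    hQ X Y π S T ρ (Fib π ys) hI, fun y hy => ⟨?_, fun θ hθ x hx => ?_⟩⟩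
  · obtain ⟨g, hg⟩ := fib_iso hI (gen_dense hys hy)
    obtain ⟨θ, hθ, -⟩ := emb_mk hC hI (M := Fib π ys) (y := y) (fun m => g m.1)
      (fun m => (hg m.1 m.2).1) (fun m m' => (hg m.1 m.2).2 m'.1 m'.2)
    exact ⟨θ, hθ⟩
  · obtain ⟨g, hg⟩ := fib_iso hI (gen_dense hy hys)
    let f : Fib π ys → Fib π ys := fun m => ⟨g (θ m), (hg (θ m) (hθ.1 m)).1⟩
    have hf : Isometry f := by
      refine Isometry.of_dist_eq ?_
      intro m m'
      show ρ (g (θ m)) (g (θ m')) = dist m m'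
      rw [(hg (θ m) (hθ.1 m)).2 (θ m') (hθ.1 m'), hθ.2]
    obtain ⟨m, hm⟩ := mod_surj hf ⟨g x, (hg x hx).1⟩
    refine ⟨m, ?_⟩
    have h1 : g (θ m) = g x := congrArg Subtype.val hm
    have h2 := (hg x hx).2 (θ m) (hθ.1 m)
    rw [h1, (hI.2.2.2.1 (g x) (g x) rfl).2 rfl] at h2
    exact ((hI.2.2.2.1 x (θ m) (hx.trans (hθ.1 m).symm)).1 h2.symm).symm

end Pool.Agent.Helper99.ZU
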